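import Pool.Agent.Helper771.FreeNilp
import Pool.Agent.Q202.LogReg.General

/-!
# Nilpotent varieties of associative algebras are logically perfect and logically regular

The variety `Θ_n(P)` of the associative `P`-algebras with the identity `x_1 x_2 ⋯ x_n = 0`,
for every field `P` and every `n ≥ 2`. Logical homogeneity of the free algebras of finite rank
is the earlier theorem `Helper771.FreeNilp.IsFreeNilp.homogeneous`; new here are the variety
defined by the identity, isotypic algebras and logical separability.
-/

set_option autoImplicit false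

namespace Pool.Agent.Results.MP_00fd70_lc.PerfectRegular

open FirstOrder FirstOrder.Language
open Pool.Agent.Helper771.FreeNilp (AlgFn algLang)

universe u v w

/-- `H` satisfies the identity `x_1 x_2 ⋯ x_n = 0`: all products of `n` elements vanish. -/
def InTheta (n : ℕ) (H : Type v) [NonUnitalRing H] : Prop :=
  ∀ (a : H) (l : List H), l.length + 1 = n → l.foldl (fun b c => b * c) a = 0

/-- `W` with the elements `x i`, `i ∈ X`, is the free algebra `W(X)` of `Θ_n(P)`. -/
structure IsFree (P : Type u) [Field P] (n : ℕ) {X : Type w} (W : Type u) [NonUnitalRing W]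
    [Module P W] [IsScalarTower P W W] [SMulCommClass P W W] (x : X → W) : Prop where
  mem : InTheta n W
  lift : ∀ (B : Type u) [NonUnitalRing B] [Module P B] [IsScalarTower P B B]
    [SMulCommClass P B B], InTheta n B → ∀ y : X → B, ∃! f : W →ₙₐ[P] B, ∀ i, f (x i) = y i

/-- The first-order signature of `P`-algebras: `+`, `-`, `0`, `·` and one unary symbol for every
scalar. -/
abbrev lang (P : Type u) : FirstOrder.Language := algLang P

/-- The complete type `tp^H(a)` of a tuple `a` in `H`. -/
def tp (P : Type u) [Field P] {H : Type v} [NonUnitalRing H] [Module P H] {k : ℕ}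
    (a : Fin k → H) : Set ((lang P).Formula (Fin k)) :=
  Set.ofPred fun φ => φ.Realize a

/-- The set `S_k(H)` of the types of `k`-tuples realised in `H`. -/
def S (P : Type u) [Field P] (H : Type v) [NonUnitalRing H] [Module P H] (k : ℕ) :
    Set (Set ((lang P).Formula (Fin k))) :=
  Set.range fun a : Fin k → H => tp P a

/-- `H₁` and `H₂` are isotypic. -/
def Isotypic (P : Type u) [Field P] (H₁ : Type v) [NonUnitalRing H₁] [Module P H₁]
    (H₂ : Type w) [NonUnitalRing H₂] [Module P H₂] : Prop :=
  ∀ k : ℕ, 1 ≤ k → S P H₁ k = S P H₂ k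

/-- `H` is logically separable in `Θ_n(P)`: every algebra of `Θ_n(P)` (in the universe `v`)
isotypic to `H` is isomorphic to `H`. -/
def LogicallySeparable (P : Type u) [Field P] (n : ℕ) (H : Type u) [NonUnitalRing H]
    [Module P H] : Prop :=
  ∀ (H' : Type v) [NonUnitalRing H'] [Module P H'] [IsScalarTower P H' H']
    [SMulCommClass P H' H'], InTheta n H' → Isotypic P H H' →
    ∃ f : H →ₙₐ[P] H', Function.Bijective f

/-- `H` is logically homogeneous: two `k`-tuples have the same type iff some automorphism maps
one to the other. -/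
def LogicallyHomogeneous (P : Type u) [Field P] (H : Type v) [NonUnitalRing H] [Module P H] :
    Prop :=
  ∀ (k : ℕ) (a b : Fin k → H), tp P a = tp P b ↔
    ∃ σ : H →ₙₐ[P] H, Function.Bijective σ ∧ ∀ i, σ (a i) = b i

/-- `Θ_n(P)` is logically regular: all `W(X)` with `X` finite are logically separable. -/
def LogicallyRegular (P : Type u) [Field P] (n : ℕ) : Prop :=
  ∀ (X : Type) [Finite X] (W : Type u) [NonUnitalRing W] [Module P W] [IsScalarTower P W W]
    [SMulCommClass P W W] (x : X → W), IsFree P n W x → LogicallySeparable.{u, v} P n W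

/-- `Θ_n(P)` is logically perfect: all `W(X)` with `X` finite are logically homogeneous. -/
def LogicallyPerfect (P : Type u) [Field P] (n : ℕ) : Prop :=
  ∀ (X : Type) [Finite X] (W : Type u) [NonUnitalRing W] [Module P W] [IsScalarTower P W W]
    [SMulCommClass P W W] (x : X → W), IsFree P n W x → LogicallyHomogeneous P W

/-! ### The identity and the powers of an algebra -/

open Pool.Agent.Helper771.FreeNilp in
theorem foldl_mem (P : Type u) [Field P] {H : Type v} [NonUnitalRing H] [Module P H]
    [IsScalarTower P H H] [SMulCommClass P H H] (l : List H) :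
    ∀ (i : ℕ), 1 ≤ i → ∀ a ∈ algPow P H i,
      l.foldl (fun b c => b * c) a ∈ algPow P H (i + l.length) := by
  induction l with
  | nil => intro i _ a ha; exact ha
  | cons c l ih =>
    intro i hi a ha
    have h1 : a * c ∈ algPow P H (i + 1) :=
      mul_mem_algPow hi le_rfl ha (by rw [algPow_one]; trivial)
    have h2 := ih (i + 1) (by omega) (a * c) h1
    rw [List.foldl_cons, List.length_cons, show i + (l.length + 1) = i + 1 + l.length by omega]
    exact h2

theorem foldl_zero {H : Type v} [NonUnitalRing H] (l : List H) :
    l.foldl (fun b c => b * c) (0 : H) = 0 := by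
  induction l with
  | nil => rfl
  | cons c l ih => rw [List.foldl_cons, zero_mul, ih]

theorem foldl_add {H : Type v} [NonUnitalRing H] (l : List H) : ∀ a b : H,
    l.foldl (fun b c => b * c) (a + b) =
      l.foldl (fun b c => b * c) a + l.foldl (fun b c => b * c) b := by
  induction l with
  | nil => intro a b; rfl
  | cons c l ih => intro a b; simp only [List.foldl_cons, add_mul, ih]

theorem foldl_smul (P : Type u) [Field P] {H : Type v} [NonUnitalRing H] [Module P H]
    [IsScalarTower P H H] (l : List H) : ∀ (t : P) (a : H),
    l.foldl (fun b c => b * c) (t • a) = t • l.foldl (fun b c => b * c) a := by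
  induction l with
  | nil => intro t a; rfl
  | cons c l ih => intro t a; simp only [List.foldl_cons, smul_mul_assoc, ih]

open Pool.Agent.Helper771.FreeNilp in
/-- The identity `x_1 ⋯ x_n = 0` says that the `n`-th power of the algebra vanishes. -/
theorem inTheta_iff (P : Type u) [Field P] {H : Type v} [NonUnitalRing H] [Module P H]
    [IsScalarTower P H H] [SMulCommClass P H H] {n : ℕ} (hn : 1 ≤ n) :
    InTheta n H ↔ IsNilp P H n := by
  constructor
  · intro h
    have key : ∀ k : ℕ, 1 ≤ k → ∀ z ∈ algPow P H k, ∀ l : List H, l.length + k = n →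
        l.foldl (fun b c => b * c) z = 0 := by
      intro k hk
      induction k, hk using Nat.le_induction with
      | base => intro z _ l hl; exact h z l hl
      | succ k hk ih =>
        intro z hz l hl
        rw [← spanMul_algPow k hk 1 le_rfl] at hz
        let T : Submodule P H :=
          { carrier := Set.ofPred fun z => l.foldl (fun b c => b * c) z = 0
            add_mem' := by
              intro a b ha hb
              rw [Set.mem_ofPred_eq] at *
              rw [foldl_add, ha, hb, add_zero]
            zero_mem' := foldl_zero l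
            smul_mem' := by
              intro t a ha
              rw [Set.mem_ofPred_eq] at *
              rw [foldl_smul P, ha, smul_zero] }
        have hle : spanMul P H (algPow P H k) (algPow P H 1) ≤ T := by
          refine spanMul_le ?_
          intro a ha b _
          change l.foldl (fun b c => b * c) (a * b) = 0
          have := ih a ha (b :: l) (by rw [List.length_cons]; omega)
          rwa [List.foldl_cons] at this
        exact hle hz
    unfold IsNilp
    rw [eq_bot_iff]
    intro z hz
    exact key n hn z hz [] (by simp)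
  · intro h a l hl
    have h1 : a ∈ algPow P H 1 := by rw [algPow_one]; trivial
    have h2 := foldl_mem P l 1 le_rfl a h1
    rw [show 1 + l.length = n by omega, h] at h2
    exact h2

/-- the free algebras in the two descriptions of the variety -/
theorem IsFree.isFreeNilp {P : Type u} [Field P] {n : ℕ} (hn : 1 ≤ n) {X : Type w} {W : Type u}
    [NonUnitalRing W] [Module P W] [IsScalarTower P W W] [SMulCommClass P W W] {x : X → W}
    (hx : IsFree P n W x) {r : ℕ} (e : Fin r ≃ X) :
    Pool.Agent.Helper771.FreeNilp.IsFreeNilp P n r W (fun i => x (e i)) := by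
  refine ⟨(inTheta_iff P hn).1 hx.mem, ?_⟩
  intro B _ _ _ _ hB y
  obtain ⟨f, hf, hu⟩ := hx.lift B ((inTheta_iff P hn).2 hB) (fun i => y (e.symm i))
  refine ⟨f, fun i => ?_, fun g hg => hu g fun i => ?_⟩
  · have := hf (e i)
    simpa using this
  · have := hg (e.symm i)
    simpa using this

/-! ### Homomorphisms and first-order structures -/

section Equiv

variable {P : Type u} [Field P] {A : Type v} [NonUnitalRing A] [Module P A]
  {B : Type w} [NonUnitalRing B] [Module P B]

/-- a bijective homomorphism of algebras is an isomorphism of first-order structures -/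
noncomputable def toEquiv (f : A →ₙₐ[P] B) (hf : Function.Bijective f) : A ≃[lang P] B where
  toEquiv := _root_.Equiv.ofBijective f hf
  map_fun' := by
    intro n g v
    match n, g with
    | _, AlgFn.zero => exact map_zero f
    | _, AlgFn.add => exact map_add f (v 0) (v 1)
    | _, AlgFn.neg => exact map_neg f (v 0)
    | _, AlgFn.mul => exact map_mul f (v 0) (v 1)
    | _, AlgFn.smul c => exact map_smul f c (v 0)
  map_rel' := by intro n r; exact r.elim

theorem toEquiv_apply (f : A →ₙₐ[P] B) (hf : Function.Bijective f) (a : A) :
    toEquiv f hf a = f a := rfl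

/-- an isomorphism of first-order structures is an isomorphism of algebras -/
theorem exists_hom (e : A ≃[lang P] B) : ∃ f : A →ₙₐ[P] B, ∀ a, f a = e a := by
  refine ⟨{ toFun := e
            map_smul' := fun c a => e.map_fun (AlgFn.smul c : AlgFn P 1) ![a]
            map_zero' := e.map_fun (AlgFn.zero : AlgFn P 0) ![]
            map_add' := fun a b => e.map_fun (AlgFn.add : AlgFn P 2) ![a, b]
            map_mul' := fun a b => e.map_fun (AlgFn.mul : AlgFn P 2) ![a, b] }, fun a => rfl⟩

end Equiv

theorem perfect (P : Type u) [Field P] (n : ℕ) (hn : 2 ≤ n) : LogicallyPerfect P n := by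
  intro X _ W _ _ _ _ x hx k a b
  constructor
  · intro h
    obtain ⟨r, ⟨e⟩⟩ := Finite.exists_equiv_fin X
    have hF := hx.isFreeNilp (by omega) e.symm
    have hreal : ∀ φ : (lang P).Formula (Fin k), φ.Realize a ↔ φ.Realize b :=
      Q202.LogReg.realize_iff_of_tp h
    rcases Nat.eq_zero_or_pos k with rfl | hk
    · exact ⟨NonUnitalAlgHom.id P W, Function.bijective_id, fun i => i.elim0⟩
    · exact hF.homogeneous (by omega) k hk a b hreal
  · rintro ⟨σ, hσ, hab⟩
    ext φ
    change φ.Realize a ↔ φ.Realize b
    rw [← StrongHomClass.realize_formula (toEquiv σ hσ) φ]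
    have : (⇑(toEquiv σ hσ) ∘ a) = b := by funext i; exact hab i
    rw [this]

theorem regular (P : Type u) [Field P] (n : ℕ) (hn : 2 ≤ n) : LogicallyRegular.{u, v} P n := by
  intro X _ W _ _ _ _ x hx H' _ _ _ _ _ hiso
  have hperf := perfect P n hn X W x hx
  obtain ⟨r, ⟨e⟩⟩ := Finite.exists_equiv_fin X
  have hF := hx.isFreeNilp (by omega) e.symm
  -- a generating tuple of positive length
  obtain ⟨k, hk, g, hg⟩ : ∃ (k : ℕ) (_ : 1 ≤ k) (g : Fin k → W),
      ∀ z : W, ∃ t : (lang P).Term (Fin k), t.realize g = z := by
    refine ⟨r + 1, by omega, Fin.snoc (fun i => x (e.symm i)) 0, fun z => ?_⟩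
    obtain ⟨t, ht⟩ := hF.exists_term z
    refine ⟨t.relabel Fin.castSucc, ?_⟩
    rw [Term.realize_relabel, ← ht]
    congr 1
    funext i
    simp
  obtain ⟨E⟩ := Q202.LogReg.exists_equiv (L := lang P) (W := W) (H := H') hk g hg (by
    intro a b hab
    obtain ⟨σ, hσ, hab'⟩ := (hperf k a b).1 (by
      ext φ
      exact hab φ)
    exact ⟨toEquiv σ hσ, hab'⟩) hiso
  obtain ⟨f, hf⟩ := exists_hom E
  refine ⟨f, ?_⟩
  have : (f : W → H') = E := funext hf
  rw [this]
  exact E.bijective

/-- Complete answer to Q1: for every field `P` and every `n ≥ 2`, the variety `Θ_n(P)` of the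
associative `P`-algebras with the identity `x_1 x_2 ⋯ x_n = 0` is logically perfect and logically
regular. (The last clause says that the free algebras `W(X)` exist, so that the first two are not
vacuous.) -/
theorem result (P : Type u) [Field P] (n : ℕ) (hn : 2 ≤ n) :
    LogicallyPerfect P n ∧ LogicallyRegular.{u, v} P n ∧
    ∀ (X : Type) [Finite X], ∃ (W : Type u) (_ : NonUnitalRing W) (_ : Module P W)
      (_ : IsScalarTower P W W) (_ : SMulCommClass P W W) (x : X → W), IsFree P n W x := by
  refine ⟨perfect P n hn, regular P n hn, ?_⟩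
  intro X _
  obtain ⟨r, ⟨e⟩⟩ := Finite.exists_equiv_fin X
  obtain ⟨F, i1, i2, i3, i4, x, hF⟩ :=
    Pool.Agent.Helper771.FreeNilp.exists_isFreeNilp P n r (by omega)
  refine ⟨F, i1, i2, i3, i4, fun i => x (e i), (inTheta_iff P (by omega)).2 hF.1, ?_⟩
  intro B _ _ _ _ hB y
  obtain ⟨f, hf, hu⟩ := hF.2 B ((inTheta_iff P (by omega)).1 hB) (fun i => y (e.symm i))
  refine ⟨f, fun i => ?_, fun g hg => hu g fun i => ?_⟩
  · have := hf (e i)
    simpa using this
  · have := hg (e.symm i)
    simpa using this

end Pool.Agent.Results.MP_00fd70_lc.PerfectRegular
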